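import Pool.Agent.N483.KM.StmW
import Pool.Agent.N986.KM.PSUP

/-!
# KM/WSP (helper263 for helper483): supporting functionals of the logarithm of the volume
-/

set_option autoImplicit false
set_option linter.unusedSectionVars false

namespace Pool.Agent.N263.KM

open MeasureTheory Set Filter Topology
open scoped ENNReal InnerProductSpace
open Pool.Agent.N603.KM (A G A_closed G_open G_sub A_mono PLset strict_lt vol_G)
open Pool.Agent.N986.KM (Su Su_conv comb2 ph ph_log)

section gen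

variable {F Q : Type*} [NormedAddCommGroup F] [NormedSpace ℝ F] [MeasurableSpace F] [BorelSpace F]
  [FiniteDimensional ℝ F] [NormedAddCommGroup Q] [NormedSpace ℝ Q] [FiniteDimensional ℝ Q] {r : ℕ}

variable (μ : Measure F) [μ.IsAddHaarMeasure]

/-- the logarithm of the volume -/
noncomputable def lR (S : Fin r → F × Q → ℝ) (w : (Fin r → ℝ) × Q) : ℝ := Real.log (ph μ S w).toReal

theorem lR_comb {S : Fin r → F × Q → ℝ} (hS : ∀ j, ConvexOn ℝ univ (S j))
    (hc : ∀ j, Continuous (S j)) (hfin : ∀ w, ph μ S w ≠ ⊤) {w w' : (Fin r → ℝ) × Q}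
    (hw : ph μ S w ≠ 0) (hw' : ph μ S w' ≠ 0) {t : ℝ} (ht0 : 0 < t) (ht1 : t < 1) :
    ph μ S ((1 - t) • w + t • w') ≠ 0 ∧
      (1 - t) * lR μ S w + t * lR μ S w' ≤ lR μ S ((1 - t) • w + t • w') := by
  have h := ph_log μ hS hc ht0 ht1 w w'
  have h1 : 0 < (ph μ S w).toReal := ENNReal.toReal_pos hw (hfin w)
  have h2 : 0 < (ph μ S w').toReal := ENNReal.toReal_pos hw' (hfin w')
  have h3 : (ph μ S w).toReal ^ (1 - t) * (ph μ S w').toReal ^ t ≤
      (ph μ S ((1 - t) • w + t • w')).toReal := by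
    have h4 := ENNReal.toReal_mono (hfin _) h
    rwa [ENNReal.toReal_mul, ← ENNReal.toReal_rpow, ← ENNReal.toReal_rpow] at h4
  have h4 : 0 < (ph μ S w).toReal ^ (1 - t) * (ph μ S w').toReal ^ t := by positivity
  refine ⟨?_, ?_⟩
  · intro h0
    rw [h0, ENNReal.toReal_zero] at h3
    linarith
  · have h5 := Real.log_le_log h4 h3
    rw [Real.log_mul (by positivity) (by positivity), Real.log_rpow h1, Real.log_rpow h2] at h5
    exact h5

/-- the strict hypograph -/
def Hy (S : Fin r → F × Q → ℝ) : Set (((Fin r → ℝ) × Q) × ℝ) :=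
  {z | ph μ S z.1 ≠ 0 ∧ z.2 < lR μ S z.1}

theorem Hy_conv {S : Fin r → F × Q → ℝ} (hS : ∀ j, ConvexOn ℝ univ (S j))
    (hc : ∀ j, Continuous (S j)) (hfin : ∀ w, ph μ S w ≠ ⊤) : Convex ℝ (Hy μ S) := by
  intro z hz z' hz' a b ha hb hab
  rcases ha.eq_or_lt with h | ha
  · rw [← h, zero_add] at hab
    rw [← h, hab]; simpa using hz'
  rcases hb.eq_or_lt with h | hb
  · rw [← h, add_zero] at hab
    rw [← h, hab]; simpa using hz
  have ha' : a = 1 - b := by linarith
  rw [ha']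
  have hb1 : b < 1 := by linarith
  obtain ⟨h1, h2⟩ := lR_comb μ hS hc hfin hz.1 hz'.1 hb hb1
  refine ⟨h1, ?_⟩
  show (1 - b) * z.2 + b * z'.2 < lR μ S ((1 - b) • z.1 + b • z'.1)
  refine lt_of_lt_of_le ?_ h2
  have h3 := mul_lt_mul_of_pos_left hz.2 (by linarith : 0 < 1 - b)
  have h4 := mul_lt_mul_of_pos_left hz'.2 hb
  linarith

theorem supp {S : Fin r → F × Q → ℝ} (hS : ∀ j, ConvexOn ℝ univ (S j))
    (hc : ∀ j, Continuous (S j)) (e : Fin r → ℝ)
    (hb : ∀ s : Fin r → ℝ, Bornology.IsBounded {z : F × Q | ∀ j, S j z ≤ s j})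
    (hsl : ∃ x0 : F, ∀ j, S j (x0, 0) < e j) :
    (∀ w, ph μ S w ≠ ⊤) ∧ ph μ S (e, 0) ≠ 0 ∧
    ∃ g : ((Fin r → ℝ) × Q) →L[ℝ] ℝ, ∀ w, ph μ S w ≠ 0 →
      lR μ S w ≤ lR μ S (e, 0) + (g w - g (e, 0)) := by
  obtain ⟨x0, hx0⟩ := hsl
  have hcu : ∀ u : Q, ∀ j, Continuous (Su S u j) := fun u j =>
    (hc j).comp (continuous_id.prodMk continuous_const)
  have hbu : ∀ (u : Q) (s : Fin r → ℝ), Bornology.IsBounded (A (Su S u) s) := by
    intro u s
    refine (hb s).image_fst.subset fun x hx => ⟨(x, u), hx, rfl⟩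
  have hfin : ∀ w, ph μ S w ≠ ⊤ := fun w =>
    (Metric.isCompact_of_isClosed_isBounded (A_closed _ (hcu w.2) w.1) (hbu w.2 w.1)).measure_lt_top.ne
  -- a ball which is contained in all the sets near the base point
  have hx0c : ∀ᶠ z : ((Fin r → ℝ) × Q) × F in 𝓝 ((e, 0), x0), ∀ j, S j (z.2, z.1.2) < z.1.1 j := by
    rw [eventually_all]
    intro j
    have h2 : Continuous fun z : ((Fin r → ℝ) × Q) × F => S j (z.2, z.1.2) :=
      (hc j).comp (continuous_snd.prodMk (continuous_snd.comp continuous_fst))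
    have h3 : Continuous fun z : ((Fin r → ℝ) × Q) × F => z.1.1 j :=
      (continuous_apply j).comp (continuous_fst.comp continuous_fst)
    exact h2.continuousAt.eventually_lt h3.continuousAt (hx0 j)
  rw [nhds_prod_eq, eventually_prod_iff] at hx0c
  obtain ⟨pa, hpa, pb, hpb, hab⟩ := hx0c
  obtain ⟨Bx, hBx, hBo, hxB⟩ := eventually_nhds_iff.1 hpb
  have hBpos : 0 < μ Bx := hBo.measure_pos μ ⟨x0, hxB⟩
  have hlow : ∀ w, pa w → μ Bx ≤ ph μ S w := by
    intro w hw
    refine measure_mono fun x hx j => ?_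
    exact (hab hw (hBx x hx) j).le
  have hpos : ph μ S (e, 0) ≠ 0 := (hBpos.trans_le (hlow _ hpa.self_of_nhds)).ne'
  refine ⟨hfin, hpos, ?_⟩
  have hBfin : μ Bx ≠ ⊤ := ne_top_of_le_ne_top (hfin _) (hlow _ hpa.self_of_nhds)
  have hBr : 0 < (μ Bx).toReal := ENNReal.toReal_pos hBpos.ne' hBfin
  have hint : ∀ y < Real.log (μ Bx).toReal, (((e, 0), y) : ((Fin r → ℝ) × Q) × ℝ) ∈ interior (Hy μ S) := by
    intro y hy
    rw [mem_interior_iff_mem_nhds]
    have h1 : ∀ᶠ z : ((Fin r → ℝ) × Q) × ℝ in 𝓝 ((e, 0), y), pa z.1 ∧ z.2 < Real.log (μ Bx).toReal := by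
      refine Filter.Eventually.and ?_ ?_
      · exact continuous_fst.continuousAt.eventually hpa
      · exact continuous_snd.continuousAt.eventually (gt_mem_nhds hy)
    filter_upwards [h1] with z hz
    have h2 := hlow z.1 hz.1
    refine ⟨(hBpos.trans_le h2).ne', hz.2.trans_le ?_⟩
    exact Real.log_le_log hBr (ENNReal.toReal_mono (hfin _) h2)
  have hni : (((e, 0), lR μ S (e, 0)) : ((Fin r → ℝ) × Q) × ℝ) ∉ interior (Hy μ S) := by
    intro h
    exact lt_irrefl _ (interior_subset h).2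
  have hcv := Hy_conv μ hS hc hfin
  obtain ⟨f, hf⟩ := geometric_hahn_banach_open_point hcv.interior isOpen_interior hni
  have hfU : ∀ w ∈ Hy μ S, f w ≤ f ((e, 0), lR μ S (e, 0)) := by
    intro w hw
    have h1 : w ∈ closure (interior (Hy μ S)) := by
      rw [hcv.closure_interior_eq_closure_of_nonempty_interior
        ⟨_, hint (Real.log (μ Bx).toReal - 1) (by linarith)⟩]
      exact subset_closure hw
    have h2 : closure (interior (Hy μ S)) ⊆ {w | f w ≤ f ((e, 0), lR μ S (e, 0))} :=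
      closure_minimal (fun a ha => (hf a ha).le) (isClosed_le f.continuous continuous_const)
    exact h2 h1
  have hdec : ∀ (w : (Fin r → ℝ) × Q) (y : ℝ), f (w, y) = f (w, 0) + y * f (0, 1) := by
    intro w y
    have e1 : ((w, y) : ((Fin r → ℝ) × Q) × ℝ) = (w, 0) + y • (0, 1) := by
      ext <;> simp
    rw [e1, map_add, map_smul, smul_eq_mul]
  obtain ⟨c, hcdef⟩ : ∃ c, c = f (0, 1) := ⟨_, rfl⟩
  have hc0 : 0 < c := by
    have h1 := hf _ (hint (Real.log (μ Bx).toReal - 1) (by linarith))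
    rw [hdec, hdec (e, 0) (lR μ S (e, 0)), ← hcdef] at h1
    have h2 : Real.log (μ Bx).toReal ≤ lR μ S (e, 0) :=
      Real.log_le_log hBr (ENNReal.toReal_mono (hfin _) (hlow _ hpa.self_of_nhds))
    by_contra h3
    push Not at h3
    nlinarith
  refine ⟨-((1 / c) • f.comp (ContinuousLinearMap.inl ℝ ((Fin r → ℝ) × Q) ℝ)), fun w hw => ?_⟩
  have h1 : f (w, 0) + lR μ S w * c ≤ f ((e, 0), 0) + lR μ S (e, 0) * c := by
    refine le_of_forall_pos_le_add fun ε hε => ?_
    have h2 := hfU (w, lR μ S w - ε / c) ⟨hw, by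
      show lR μ S w - ε / c < lR μ S w
      have := div_pos hε hc0
      linarith⟩
    rw [hdec, hdec (e, 0) (lR μ S (e, 0)), ← hcdef] at h2
    have h3 : (lR μ S w - ε / c) * c = lR μ S w * c - ε := by field_simp
    rw [h3] at h2
    linarith
  have h2 : lR μ S w ≤ lR μ S (e, 0) + (f ((e, 0), 0) - f (w, 0)) / c := by
    rw [← sub_le_iff_le_add', le_div_iff₀ hc0]
    linarith
  refine h2.trans (le_of_eq ?_)
  have h3 : ∀ w : (Fin r → ℝ) × Q, (-((1 / c) • f.comp (ContinuousLinearMap.inl ℝ ((Fin r → ℝ) × Q) ℝ))) w =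
      -((1 / c) * f (w, 0)) := fun w => rfl
  rw [h3, h3]
  field_simp
  ring

end gen

open Pool.Agent.R754.KG (E)
open Pool.Agent.N483.KM (LV S_WSP)

/-- KM/WSP -/
theorem t_WSP : Pool.Agent.N483.KM.S_WSP := by
  intro r n q S e hn hS hnn hb hsl
  have hc : ∀ j, Continuous (S j) := fun j => by
    have := (hS j).continuousOn isOpen_univ
    exact continuousOn_univ.mp this
  obtain ⟨hfin, hpos, f, hf⟩ := supp (volume : Measure (E n)) hS hc e hb hsl
  obtain ⟨g, hg⟩ : ∃ g : E q →L[ℝ] ℝ, ∀ u, g u = f (0, u) :=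
    ⟨f.comp (ContinuousLinearMap.inr ℝ (Fin r → ℝ) (E q)), fun u => rfl⟩
  have hdec : ∀ (s : Fin r → ℝ) (u : E q), f (s, u) = ∑ j, s j * f (Pi.single j 1, 0) + g u := by
    intro s u
    have e1 : ((s, u) : (Fin r → ℝ) × E q) =
        (∑ j, s j • ((Pi.single j 1, 0) : (Fin r → ℝ) × E q)) + (0, u) := by
      ext
      · simp [Finset.sum_apply, Prod.fst_sum, Pi.single_apply]
      · simp [Prod.snd_sum]
    rw [e1, map_add, map_sum, hg]
    congr 1
    refine Finset.sum_congr rfl fun j _ => ?_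
    rw [map_smul, smul_eq_mul]
  have hR0 : 0 < (ph volume S (e, 0)).toReal := ENNReal.toReal_pos hpos (hfin _)
  -- the coefficients are nonnegative
  have hle : ∀ j, 0 ≤ f (Pi.single j 1, 0) := by
    intro j
    have hm : ph volume S (e, 0) ≤ ph volume S (e + Pi.single j 1, 0) := by
      refine measure_mono (A_mono _ fun i => ?_)
      show e i ≤ e i + (Pi.single j (1 : ℝ) : Fin r → ℝ) i
      have : 0 ≤ (Pi.single j (1 : ℝ) : Fin r → ℝ) i := by
        by_cases hij : i = j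
        · subst hij; simp
        · simp [Pi.single_eq_of_ne hij]
      linarith
    have h1 := hf (e + Pi.single j 1, 0) (pos_iff_ne_zero.1 ((pos_iff_ne_zero.2 hpos).trans_le hm))
    have h2 : lR volume S (e, 0) ≤ lR volume S (e + Pi.single j 1, 0) :=
      Real.log_le_log hR0 (ENNReal.toReal_mono (hfin _) hm)
    have e1 : ((e + Pi.single j 1, 0) : (Fin r → ℝ) × E q) = (e, 0) + (Pi.single j 1, 0) := by simp
    rw [e1, map_add] at h1
    rw [e1] at h2
    linarith
  obtain ⟨x0, hx0⟩ := hsl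
  have he0 : 0 ≤ ∑ j, e j := Finset.sum_nonneg fun j _ => (hnn j (x0, 0)).trans (hx0 j).le
  obtain ⟨η, hη⟩ : ∃ η : ℝ, η = Real.log 2 / (1 + ∑ j, e j) := ⟨_, rfl⟩
  have hlog2 : 0 < Real.log 2 := Real.log_pos (by norm_num)
  have hη0 : 0 < η := by rw [hη]; positivity
  have hη1 : η * ∑ j, e j ≤ Real.log 2 := by
    rw [hη, div_mul_eq_mul_div, div_le_iff₀ (by positivity)]
    nlinarith
  refine ⟨fun j => f (Pi.single j 1, 0) + η, (InnerProductSpace.toDual ℝ (E q)).symm g,
    fun j => by linarith [hle j], fun s u => ?_⟩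
  rw [InnerProductSpace.toDual_symm_apply]
  have hL : volume (LV S s u) = ph volume S (s, u) := rfl
  have hL0 : volume (LV S e 0) = ph volume S (e, 0) := rfl
  rw [hL, hL0]
  by_cases h0 : ph volume S (s, u) = 0
  · rw [h0]
    exact bot_le
  have hs0 : ∀ j, 0 ≤ s j := by
    intro j
    by_contra hcon
    push Not at hcon
    apply h0
    have h1 : A (Su S u) s = ∅ := by
      rw [eq_empty_iff_forall_notMem]
      intro x hx
      have h2 : S j (x, u) ≤ s j := hx j
      linarith [hnn j (x, u)]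
    show volume (A (Su S u) s) = 0
    rw [h1, measure_empty]
  have hRs : 0 < (ph volume S (s, u)).toReal := ENNReal.toReal_pos h0 (hfin _)
  have h1 := hf (s, u) h0
  have h2 : f (s, u) - f (e, 0) ≤ ∑ j, (f (Pi.single j 1, 0) + η) * (s j - e j) + g u + Real.log 2 := by
    rw [hdec, hdec, map_zero g, add_zero]
    have h3 : ∑ j, (f (Pi.single j 1, 0) + η) * (s j - e j) =
        ∑ j, s j * f (Pi.single j 1, 0) - ∑ j, e j * f (Pi.single j 1, 0) + (η * ∑ j, s j - η * ∑ j, e j) := by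
      rw [Finset.mul_sum, Finset.mul_sum, ← Finset.sum_sub_distrib, ← Finset.sum_sub_distrib,
        ← Finset.sum_add_distrib]
      exact Finset.sum_congr rfl fun j _ => by ring
    rw [h3]
    have h4 : 0 ≤ η * ∑ j, s j := mul_nonneg hη0.le (Finset.sum_nonneg fun j _ => hs0 j)
    linarith
  have h3 : (ph volume S (s, u)).toReal ≤
      2 * Real.exp (∑ j, (f (Pi.single j 1, 0) + η) * (s j - e j) + g u) * (ph volume S (e, 0)).toReal := by
    have h4 : lR volume S (s, u) ≤ lR volume S (e, 0) +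
        (∑ j, (f (Pi.single j 1, 0) + η) * (s j - e j) + g u + Real.log 2) := by linarith
    have h5 := Real.exp_le_exp.2 h4
    unfold lR at h5
    rw [Real.exp_log hRs, Real.exp_add, Real.exp_log hR0, Real.exp_add _ (Real.log 2),
      Real.exp_log (by norm_num : (0:ℝ) < 2)] at h5
    linarith
  have h4 := ENNReal.ofReal_le_ofReal h3
  rwa [ENNReal.ofReal_toReal (hfin _), ENNReal.ofReal_mul (by positivity), ENNReal.ofReal_toReal (hfin _)] at h4

end Pool.Agent.N263.KM
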